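import Mathlib

/-!
# Skew partitions of balanced size: definitions and the combinatorial part
-/

set_option autoImplicit false

namespace Pool.Agent.Q323.Skew

/-- `A, B, C, D` form a skew partition of `G`: they are nonempty, pairwise disjoint and cover the
vertex set, there is no edge between `A` and `B`, and all edges between `C` and `D` are present. -/
structure IsSkewPartition {V : Type} (G : SimpleGraph V) (A B C D : Set V) : Prop where
  nonempty : A.Nonempty ∧ B.Nonempty ∧ C.Nonempty ∧ D.Nonempty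
  disjoint : Disjoint A B ∧ Disjoint A C ∧ Disjoint A D ∧ Disjoint B C ∧ Disjoint B D ∧ Disjoint C D
  cover : A ∪ B ∪ C ∪ D = Set.univ
  anticomplete : ∀ a ∈ A, ∀ b ∈ B, ¬ G.Adj a b
  complete : ∀ c ∈ C, ∀ d ∈ D, G.Adj c d

/-- The graph `G` has a skew partition of balanced size with constant `c`. -/
def HasBSP (c : ℚ) {V : Type} (G : SimpleGraph V) : Prop :=
  ∃ A B C D : Set V, IsSkewPartition G A B C D ∧ (Nat.card V : ℚ) / c ≤ A.ncard ∧
    (Nat.card V : ℚ) / c ≤ B.ncard ∧ (Nat.card V : ℚ) / c ≤ C.ncard ∧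
    (Nat.card V : ℚ) / c ≤ D.ncard

/-- The same with a threshold for the sizes. -/
def HasSP (t : ℕ) {V : Type} (G : SimpleGraph V) : Prop :=
  ∃ A B C D : Set V, IsSkewPartition G A B C D ∧ t ≤ A.ncard ∧ t ≤ B.ncard ∧ t ≤ C.ncard ∧
    t ≤ D.ncard

theorem HasSP.of_iso {V W : Type} {G : SimpleGraph V} {H : SimpleGraph W} (e : G ≃g H) {t : ℕ}
    (h : HasSP t G) : HasSP t H := by
  obtain ⟨A, B, C, D, h1, hA, hB, hC, hD⟩ := h
  have hd : ∀ {X Y : Set V}, Disjoint X Y → Disjoint (e '' X) (e '' Y) := by
    intro X Y h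
    exact (Set.disjoint_image_iff e.injective).2 h
  refine ⟨e '' A, e '' B, e '' C, e '' D, ⟨?_, ?_, ?_, ?_, ?_⟩, ?_, ?_, ?_, ?_⟩
  · exact ⟨h1.nonempty.1.image _, h1.nonempty.2.1.image _, h1.nonempty.2.2.1.image _,
      h1.nonempty.2.2.2.image _⟩
  · obtain ⟨a1, a2, a3, a4, a5, a6⟩ := h1.disjoint
    exact ⟨hd a1, hd a2, hd a3, hd a4, hd a5, hd a6⟩
  · rw [← Set.image_union, ← Set.image_union, ← Set.image_union, h1.cover, Set.image_univ]
    exact e.surjective.range_eq
  · rintro _ ⟨a, ha, rfl⟩ _ ⟨b, hb, rfl⟩ h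
    exact h1.anticomplete a ha b hb (e.map_adj_iff.1 h)
  · rintro _ ⟨a, ha, rfl⟩ _ ⟨b, hb, rfl⟩
    exact e.map_adj_iff.2 (h1.complete a ha b hb)
  · rwa [Set.ncard_image_of_injective _ e.injective]
  · rwa [Set.ncard_image_of_injective _ e.injective]
  · rwa [Set.ncard_image_of_injective _ e.injective]
  · rwa [Set.ncard_image_of_injective _ e.injective]

/-- The vertices: `v` vertices and `e` edges of a graph, `u` further vertices on the side of the
vertices, `w` further vertices on the side of the edges, `s` isolated vertices. -/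
inductive BV (v u e w s : ℕ) : Type
  | P (x : Fin v)
  | U (x : Fin u)
  | E (x : Fin e)
  | W (x : Fin w)
  | I (x : Fin s)
  deriving DecidableEq

variable {v u e w s : ℕ}

/-- The type is a disjoint union. -/
def BV.equiv : BV v u e w s ≃ (((Fin v ⊕ Fin u) ⊕ Fin e) ⊕ Fin w) ⊕ Fin s where
  toFun
    | .P x => Sum.inl (Sum.inl (Sum.inl (Sum.inl x)))
    | .U x => Sum.inl (Sum.inl (Sum.inl (Sum.inr x)))
    | .E x => Sum.inl (Sum.inl (Sum.inr x))
    | .W x => Sum.inl (Sum.inr x)
    | .I x => Sum.inr x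
  invFun
    | Sum.inl (Sum.inl (Sum.inl (Sum.inl x))) => .P x
    | Sum.inl (Sum.inl (Sum.inl (Sum.inr x))) => .U x
    | Sum.inl (Sum.inl (Sum.inr x)) => .E x
    | Sum.inl (Sum.inr x) => .W x
    | Sum.inr x => .I x
  left_inv x := by cases x <;> rfl
  right_inv x := by rcases x with (((x | x) | x) | x) | x <;> rfl

instance : Finite (BV v u e w s) := Finite.of_equiv _ BV.equiv.symm

theorem card_BV : Nat.card (BV v u e w s) = v + u + e + w + s := by
  rw [Nat.card_congr BV.equiv]
  simp

/-- One direction of the adjacency; `inc` is the incidence relation. -/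
def half (inc : ℕ → ℕ → Bool) : BV v u e w s → BV v u e w s → Prop
  | .P x, .E y => inc x y = false
  | .P _, .W _ => True
  | .U _, .E _ => True
  | .U _, .W _ => True
  | _, _ => False

/-- The graph. -/
def graph (inc : ℕ → ℕ → Bool) : SimpleGraph (BV v u e w s) where
  Adj a b := half inc a b ∨ half inc b a
  symm := ⟨fun _ _ h => h.symm⟩
  loopless := ⟨fun a h => by cases a <;> simp [half] at h⟩

variable {inc : ℕ → ℕ → Bool}

/-- The side of a vertex. -/
def side : BV v u e w s → Bool
  | .P _ => true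
  | .U _ => true
  | .E _ => false
  | .W _ => false
  | .I _ => false

theorem side_ne {a b : BV v u e w s} (h : (graph inc).Adj a b) : side a ≠ side b := by
  rcases h with h | h <;> cases a <;> cases b <;> simp_all [half, side]

theorem half_of {a b : BV v u e w s} (h : (graph inc).Adj a b) (ha : side a = true) :
    half inc a b := by
  rcases h with h | h
  · exact h
  · cases a <;> cases b <;> simp_all [half, side]

theorem graph_colorable : (graph inc : SimpleGraph (BV v u e w s)).Colorable 2 := by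
  refine ⟨SimpleGraph.Coloring.mk (fun a => if side a then 0 else 1) ?_⟩
  intro a b h
  have := side_ne h
  cases ha : side a <;> cases hb : side b <;> simp_all

/-- The number of elements of a set of the form `{P x | x ∈ X} ∪ {U}`. -/
theorem ncard_side1 {C : Set (BV v u e w s)} (hC : ∀ a ∈ C, side a = true) :
    C.ncard ≤ {x : Fin v | BV.P x ∈ C}.ncard + u := by
  classical
  have h1 : C ⊆ (BV.P '' {x : Fin v | BV.P x ∈ C}) ∪ Set.range (BV.U : Fin u → BV v u e w s) := by
    intro a ha
    cases a with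
    | P x => exact Or.inl ⟨x, ha, rfl⟩
    | U x => exact Or.inr ⟨x, rfl⟩
    | E x => exact absurd (hC _ ha) (by simp [side])
    | W x => exact absurd (hC _ ha) (by simp [side])
    | I x => exact absurd (hC _ ha) (by simp [side])
  refine (Set.ncard_le_ncard h1 (Set.toFinite _)).trans ((Set.ncard_union_le _ _).trans ?_)
  have h2 : (Set.range (BV.U : Fin u → BV v u e w s)).ncard ≤ u := by
    rw [← Set.image_univ]
    refine (Set.ncard_image_le (Set.toFinite _)).trans ?_
    simp [Set.ncard_univ]
  have h3 := Set.ncard_image_le (f := (BV.P : Fin v → BV v u e w s))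
    (Set.toFinite {x : Fin v | BV.P x ∈ C})
  omega

theorem ncard_side2 {D : Set (BV v u e w s)} (hD : ∀ a ∈ D, (∃ x, a = BV.E x) ∨ ∃ x, a = BV.W x) :
    D.ncard ≤ {x : Fin e | BV.E x ∈ D}.ncard + w := by
  classical
  have h1 : D ⊆ (BV.E '' {x : Fin e | BV.E x ∈ D}) ∪ Set.range (BV.W : Fin w → BV v u e w s) := by
    intro a ha
    rcases hD a ha with ⟨x, rfl⟩ | ⟨x, rfl⟩
    · exact Or.inl ⟨x, ha, rfl⟩
    · exact Or.inr ⟨x, rfl⟩
  refine (Set.ncard_le_ncard h1 (Set.toFinite _)).trans ((Set.ncard_union_le _ _).trans ?_)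
  have h2 : (Set.range (BV.W : Fin w → BV v u e w s)).ncard ≤ w := by
    rw [← Set.image_univ]
    refine (Set.ncard_image_le (Set.toFinite _)).trans ?_
    simp [Set.ncard_univ]
  have h3 := Set.ncard_image_le (f := (BV.E : Fin e → BV v u e w s))
    (Set.toFinite {x : Fin e | BV.E x ∈ D})
  omega

/-- Soundness. -/
theorem sound {k m t : ℕ} (hu : t + k = v + u) (hw : t = m + w)
    (h : HasSP t (graph inc : SimpleGraph (BV v u e w s))) :
    ∃ (K : Finset (Fin v)) (F : Finset (Fin e)), K.card ≤ k ∧ m ≤ F.card ∧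
      ∀ y ∈ F, ∀ x : Fin v, inc x y = true → x ∈ K := by
  classical
  obtain ⟨A, B, C, D, hS, -, -, hC, hD⟩ := h
  -- one of the sets `C`, `D` is on the first side
  have key : ∀ C D : Set (BV v u e w s), (∀ c ∈ C, ∀ d ∈ D, (graph inc).Adj c d) →
      t ≤ C.ncard → t ≤ D.ncard → C.Nonempty → D.Nonempty → (∃ c ∈ C, side c = true) →
      ∃ (K : Finset (Fin v)) (F : Finset (Fin e)), K.card ≤ k ∧ m ≤ F.card ∧
        ∀ y ∈ F, ∀ x : Fin v, inc x y = true → x ∈ K := by
    intro C D hCD hC hD hCne hDne ⟨c₀, hc₀, hs⟩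
    obtain ⟨d₀, hd₀⟩ := hDne
    have hDs : ∀ d ∈ D, side d = false := by
      intro d hd
      have := side_ne (hCD c₀ hc₀ d hd)
      rw [hs] at this
      cases h : side d
      · rfl
      · rw [h] at this; exact absurd rfl this
    have hCs : ∀ c ∈ C, side c = true := by
      intro c hc
      have := side_ne (hCD c hc d₀ hd₀)
      rw [hDs d₀ hd₀] at this
      cases h : side c
      · rw [h] at this; exact absurd rfl this
      · rfl
    have hDs' : ∀ a ∈ D, (∃ x, a = BV.E x) ∨ ∃ x, a = BV.W x := by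
      intro a ha
      have h1 := half_of (hCD c₀ hc₀ a ha) hs
      cases a with
      | E x => exact Or.inl ⟨x, rfl⟩
      | W x => exact Or.inr ⟨x, rfl⟩
      | P x => cases c₀ <;> simp [half] at h1
      | U x => cases c₀ <;> simp [half] at h1
      | I x => cases c₀ <;> simp [half] at h1
    have h1 := ncard_side1 hCs
    have h2 := ncard_side2 hDs'
    set X := {x : Fin v | BV.P x ∈ C} with hX
    set Y := {x : Fin e | BV.E x ∈ D} with hY
    refine ⟨Finset.univ.filter (fun x => x ∉ X), Finset.univ.filter (fun y => y ∈ Y), ?_, ?_, ?_⟩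
    · have h3 : (Finset.univ.filter (fun x => x ∈ X)).card = X.ncard := by
        rw [← Set.ncard_coe_finset]
        congr 1
        ext x
        simp
      have h4 := Finset.card_filter_add_card_filter_not (s := (Finset.univ : Finset (Fin v)))
        (p := fun x => x ∈ X)
      rw [h3] at h4
      simp only [Finset.card_univ, Fintype.card_fin] at h4
      omega
    · have h3 : (Finset.univ.filter (fun x => x ∈ Y)).card = Y.ncard := by
        rw [← Set.ncard_coe_finset]
        congr 1
        ext x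
        simp
      rw [h3]
      omega
    · intro y hy x hxy
      rw [Finset.mem_filter] at hy ⊢
      refine ⟨Finset.mem_univ _, fun hx => ?_⟩
      have h3 : (graph inc).Adj (BV.P x : BV v u e w s) (BV.E y) := hCD _ hx _ hy.2
      have h4 := half_of h3 rfl
      simp only [half] at h4
      rw [hxy] at h4
      exact absurd h4 (by simp)
  obtain ⟨c₀, hc₀⟩ := hS.nonempty.2.2.1
  obtain ⟨d₀, hd₀⟩ := hS.nonempty.2.2.2
  by_cases hs : side c₀ = true
  · exact key C D hS.complete hC hD ⟨c₀, hc₀⟩ ⟨d₀, hd₀⟩ ⟨c₀, hc₀, hs⟩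
  · refine key D C (fun d hd c hc => (hS.complete c hc d hd).symm) hD hC ⟨d₀, hd₀⟩ ⟨c₀, hc₀⟩
      ⟨d₀, hd₀, ?_⟩
    have := side_ne (hS.complete c₀ hc₀ d₀ hd₀)
    cases h : side d₀
    · rw [h] at this
      cases h' : side c₀
      · rw [h'] at this; exact absurd rfl this
      · exact absurd h' hs
    · rfl

/-- Completeness. -/
theorem complete {k m t : ℕ} (ht : 0 < t) (hu : t + k = v + u) (hw : t = m + w) (hs : t ≤ s)
    (hn : 4 * t ≤ v + u + e + w + s) {K : Finset (Fin v)} {F : Finset (Fin e)} (hK : K.card = k)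
    (hF : F.card = m) (hKF : ∀ y ∈ F, ∀ x : Fin v, inc x y = true → x ∈ K) :
    HasSP t (graph inc : SimpleGraph (BV v u e w s)) := by
  classical
  let C : Finset (BV v u e w s) := (Finset.univ.filter (fun x => x ∉ K)).image BV.P ∪
    Finset.univ.image BV.U
  let D : Finset (BV v u e w s) := F.image BV.E ∪ Finset.univ.image BV.W
  let B : Finset (BV v u e w s) := (Finset.univ.filter (fun x : Fin s => x.1 < t)).image BV.I
  have instF : Fintype (BV v u e w s) := Fintype.ofFinite _
  let A : Finset (BV v u e w s) := Finset.univ \ (B ∪ C ∪ D)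
  have hCm : ∀ a, a ∈ C ↔ (∃ x, x ∉ K ∧ a = BV.P x) ∨ ∃ x, a = BV.U x := by
    intro a
    simp [C, eq_comm]
  have hDm : ∀ a, a ∈ D ↔ (∃ x ∈ F, a = BV.E x) ∨ ∃ x, a = BV.W x := by
    intro a
    simp [D, eq_comm]
  have hBm : ∀ a, a ∈ B ↔ ∃ x : Fin s, x.1 < t ∧ a = BV.I x := by
    intro a
    simp [B, eq_comm]
  have injP : Function.Injective (BV.P : Fin v → BV v u e w s) := fun x y h => by simpa using h
  have injU : Function.Injective (BV.U : Fin u → BV v u e w s) := fun x y h => by simpa using h
  have injE : Function.Injective (BV.E : Fin e → BV v u e w s) := fun x y h => by simpa using h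
  have injW : Function.Injective (BV.W : Fin w → BV v u e w s) := fun x y h => by simpa using h
  have injI : Function.Injective (BV.I : Fin s → BV v u e w s) := fun x y h => by simpa using h
  have hCc : C.card = t := by
    have h1 : Disjoint ((Finset.univ.filter (fun x => x ∉ K)).image (BV.P : _ → BV v u e w s))
        (Finset.univ.image BV.U) := by
      rw [Finset.disjoint_left]
      intro a h1 h2
      simp only [Finset.mem_image] at h1 h2
      obtain ⟨x, _, rfl⟩ := h1
      obtain ⟨y, _, h⟩ := h2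
      simp at h
    have h4 := Finset.card_filter_add_card_filter_not (s := (Finset.univ : Finset (Fin v)))
      (p := fun x => x ∈ K)
    rw [Finset.filter_mem_eq_inter, Finset.univ_inter, hK] at h4
    rw [Finset.card_union_of_disjoint h1, Finset.card_image_of_injective _ injP,
      Finset.card_image_of_injective _ injU]
    simp only [Finset.card_univ, Fintype.card_fin] at h4 ⊢
    omega
  have hDc : D.card = t := by
    have h1 : Disjoint (F.image (BV.E : _ → BV v u e w s)) (Finset.univ.image BV.W) := by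
      rw [Finset.disjoint_left]
      intro a h1 h2
      simp only [Finset.mem_image] at h1 h2
      obtain ⟨x, _, rfl⟩ := h1
      obtain ⟨y, _, h⟩ := h2
      simp at h
    rw [Finset.card_union_of_disjoint h1, Finset.card_image_of_injective _ injE,
      Finset.card_image_of_injective _ injW, hF]
    simp only [Finset.card_univ, Fintype.card_fin]
    omega
  have hBc : B.card = t := by
    rw [Finset.card_image_of_injective _ injI]
    have : (Finset.univ.filter (fun x : Fin s => x.1 < t)).card = t := by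
      rw [Fin.card_filter_val_lt]
      omega
    exact this
  have dBC : Disjoint B C := by
    rw [Finset.disjoint_left]
    intro a h1 h2
    rw [hBm] at h1
    rw [hCm] at h2
    obtain ⟨x, _, rfl⟩ := h1
    rcases h2 with ⟨y, _, h⟩ | ⟨y, h⟩ <;> simp at h
  have dBD : Disjoint B D := by
    rw [Finset.disjoint_left]
    intro a h1 h2
    rw [hBm] at h1
    rw [hDm] at h2
    obtain ⟨x, _, rfl⟩ := h1
    rcases h2 with ⟨y, _, h⟩ | ⟨y, h⟩ <;> simp at h
  have dCD : Disjoint C D := by
    rw [Finset.disjoint_left]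
    intro a h1 h2
    rw [hCm] at h1
    rw [hDm] at h2
    rcases h1 with ⟨x, _, rfl⟩ | ⟨x, rfl⟩ <;> rcases h2 with ⟨y, _, h⟩ | ⟨y, h⟩ <;> simp at h
  have hAc : t ≤ A.card := by
    have h1 : (B ∪ C ∪ D).card ≤ 3 * t := by
      refine (Finset.card_union_le _ _).trans ?_
      have := Finset.card_union_le B C
      omega
    have h2 : A.card = (Finset.univ : Finset (BV v u e w s)).card - (B ∪ C ∪ D).card := by
      rw [Finset.card_sdiff_of_subset (Finset.subset_univ _)]
    have h3 : (Finset.univ : Finset (BV v u e w s)).card = v + u + e + w + s := by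
      rw [Finset.card_univ, ← Nat.card_eq_fintype_card, card_BV]
    omega
  have hA1 : Disjoint A (B ∪ C ∪ D) := Finset.sdiff_disjoint
  rw [Finset.disjoint_union_right, Finset.disjoint_union_right] at hA1
  have pos : ∀ X : Finset (BV v u e w s), t ≤ X.card → (X : Set (BV v u e w s)).Nonempty := by
    intro X hX
    rw [Finset.coe_nonempty, ← Finset.card_pos]
    omega
  refine ⟨A, B, C, D, ⟨⟨pos A hAc, pos B hBc.ge, pos C hCc.ge, pos D hDc.ge⟩,
    ⟨?_, ?_, ?_, ?_, ?_, ?_⟩, ?_, ?_, ?_⟩, ?_, ?_, ?_, ?_⟩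
  · exact_mod_cast hA1.1.1
  · exact_mod_cast hA1.1.2
  · exact_mod_cast hA1.2
  · exact_mod_cast dBC
  · exact_mod_cast dBD
  · exact_mod_cast dCD
  · ext a
    simp only [Set.mem_union, Finset.mem_coe, Set.mem_univ, iff_true]
    by_cases h : a ∈ B ∪ C ∪ D
    · rw [Finset.mem_union, Finset.mem_union] at h
      tauto
    · left; left; left
      exact Finset.mem_sdiff.2 ⟨Finset.mem_univ _, h⟩
  · intro a _ b hb hadj
    rw [Finset.mem_coe, hBm] at hb
    obtain ⟨x, _, rfl⟩ := hb
    rcases hadj with h | h <;> cases a <;> simp [half] at h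
  · intro c hc d hd
    rw [Finset.mem_coe, hCm] at hc
    rw [Finset.mem_coe, hDm] at hd
    left
    rcases hc with ⟨x, hx, rfl⟩ | ⟨x, rfl⟩ <;> rcases hd with ⟨y, hy, rfl⟩ | ⟨y, rfl⟩
    · change inc x y = false
      cases h : inc x y
      · rfl
      · exact absurd (hKF y hy x h) hx
    · trivial
    · trivial
    · trivial
  · rwa [Set.ncard_coe_finset]
  · rw [Set.ncard_coe_finset, hBc]
  · rw [Set.ncard_coe_finset, hCc]
  · rw [Set.ncard_coe_finset, hDc]

end Pool.Agent.Q323.Skew
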