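import Pool.Agent.Q323.Skew.Comb
import Pool.Agent.Q323.Base.Box
import Pool.Agent.H634R2.Clique
import Pool.Agent.H673R2.HardOn
import Pool.Agent.H515R2.PP.Core

/-!
# Skew partitions of balanced size: the reduction from CLIQUE
-/

set_option autoImplicit false

namespace Pool.Agent.Q323.Skew

open Pool.Agent.NPC Pool.Agent.H622R2 Pool.Agent.Q323.Box Pool.Agent.NPC.H634R2 Pool.Agent.H673R2

/-- Instances of the clique problem. -/
abbrev CI : Type := (List ℕ × List (ℕ × ℕ)) × ℕ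

/-- The incidence of the `x`-th vertex and the `y`-th edge. -/
def incL (I : CI) (x y : ℕ) : Bool :=
  decide (I.1.1.getD x 0 = (I.1.2.getD y (0, 0)).1) || decide (I.1.1.getD x 0 = (I.1.2.getD y (0, 0)).2)

/-- The list of edges has few elements among few vertices unless there is a clique. -/
theorem clique_of_dense {I : CI} (hI : IsGraph I.1.1 I.1.2) {k : ℕ} (hk : 2 ≤ k)
    {K : Finset (Fin I.1.1.length)} {F : Finset (Fin I.1.2.length)} (hK : K.card ≤ k)
    (hF : k.choose 2 ≤ F.card)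
    (hKF : ∀ y ∈ F, ∀ x : Fin I.1.1.length, incL I x y = true → x ∈ K) :
    HasClique I.1.1 I.1.2 k := by
  classical
  obtain ⟨h1, h2, h3⟩ := hI
  let V := I.1.1
  let E := I.1.2
  let S : Finset ℕ := K.image (fun x => V[x.1])
  have hSc : S.card ≤ k := (Finset.card_image_le).trans hK
  -- endpoints of edges in `F` are in `S`
  have hend : ∀ y ∈ F, E[y.1].1 ∈ S ∧ E[y.1].2 ∈ S := by
    intro y hy
    have he := h2 E[y.1] (List.getElem_mem _)
    have key : ∀ a ∈ V, (a = E[y.1].1 ∨ a = E[y.1].2) → a ∈ S := by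
      intro a ha hor
      obtain ⟨x, hx, rfl⟩ := List.getElem_of_mem ha
      refine Finset.mem_image.2 ⟨⟨x, hx⟩, hKF y hy ⟨x, hx⟩ ?_, rfl⟩
      have e1 : I.1.1.getD x 0 = V[x] := by
        rw [List.getD_eq_getElem?_getD, List.getElem?_eq_getElem hx]
        rfl
      have e2 : I.1.2.getD y.1 (0, 0) = E[y.1] := by
        rw [List.getD_eq_getElem?_getD, List.getElem?_eq_getElem y.2]
        rfl
      simp only [incL, e1, e2]
      rcases hor with h | h
      · simp [h]
      · simp [h]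
    exact ⟨key _ he.1 (Or.inl rfl), key _ he.2.1 (Or.inr rfl)⟩
  let T : Finset (Sym2 ℕ) := F.image (fun y => s(E[y.1].1, E[y.1].2))
  have hTc : T.card = F.card := by
    refine Finset.card_image_of_injOn ?_
    intro y _ z _ hyz
    have h4 : (E.map (fun e => s(e.1, e.2)))[y.1]'(by simp [E]) =
        (E.map (fun e => s(e.1, e.2)))[z.1]'(by simp [E]) := by
      simpa using hyz
    have h5 := (h3.getElem_inj_iff).1 h4
    exact Fin.ext h5
  let R : Finset (Sym2 ℕ) := S.offDiag.image Sym2.mk.uncurry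
  have hRc : R.card = S.card.choose 2 := Sym2.card_image_offDiag S
  have hTR : T ⊆ R := by
    intro p hp
    obtain ⟨y, hy, rfl⟩ := Finset.mem_image.1 hp
    refine Finset.mem_image.2 ⟨E[y.1], ?_, rfl⟩
    rw [Finset.mem_offDiag]
    exact ⟨(hend y hy).1, (hend y hy).2, (h2 E[y.1] (List.getElem_mem _)).2.2⟩
  have hle := Finset.card_le_card hTR
  have hSk : S.card = k := by
    by_contra hne
    have hlt : S.card < k := lt_of_le_of_ne hSc hne
    have h6 : S.card.choose 2 < k.choose 2 := by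
      have h7 : S.card.choose 2 ≤ (k - 1).choose 2 := Nat.choose_le_choose 2 (by omega)
      have h8 : k.choose 2 = (k - 1).choose 1 + (k - 1).choose 2 := by
        obtain ⟨j, rfl⟩ : ∃ j, k = j + 1 := ⟨k - 1, by omega⟩
        simp [Nat.choose_succ_succ]
      rw [Nat.choose_one_right] at h8
      omega
    omega
  have hTReq : T = R := Finset.eq_of_subset_of_card_le hTR (by rw [hRc, hSk, hTc]; exact hF)
  refine ⟨S, ?_, hSk, ?_⟩
  · intro a ha
    obtain ⟨x, _, rfl⟩ := Finset.mem_image.1 ha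
    exact List.getElem_mem _
  · intro a ha b hb hab
    have hmem : s(a, b) ∈ T := by
      rw [hTReq]
      exact Finset.mem_image.2 ⟨(a, b), Finset.mem_offDiag.2 ⟨ha, hb, hab⟩, rfl⟩
    obtain ⟨y, _, hy⟩ := Finset.mem_image.1 hmem
    rw [Sym2.eq_iff] at hy
    rcases hy with ⟨e1, e2⟩ | ⟨e1, e2⟩
    · left
      rw [← e1, ← e2]
      exact List.getElem_mem _
    · right
      rw [← e1, ← e2]
      exact List.getElem_mem _

theorem dense_of_clique {I : CI} (hI : IsGraph I.1.1 I.1.2) {k : ℕ}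
    (h : HasClique I.1.1 I.1.2 k) :
    ∃ (K : Finset (Fin I.1.1.length)) (F : Finset (Fin I.1.2.length)), K.card = k ∧
      F.card = k.choose 2 ∧
      ∀ y ∈ F, ∀ x : Fin I.1.1.length, incL I x y = true → x ∈ K := by
  classical
  obtain ⟨h1, h2, h3⟩ := hI
  obtain ⟨S, hS1, hS2, hS3⟩ := h
  let V := I.1.1
  let E := I.1.2
  let K : Finset (Fin V.length) := Finset.univ.filter (fun x => V[x.1] ∈ S)
  let F : Finset (Fin E.length) := Finset.univ.filter (fun y => E[y.1].1 ∈ S ∧ E[y.1].2 ∈ S)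
  refine ⟨K, F, ?_, ?_, ?_⟩
  · rw [← hS2]
    refine Finset.card_bij (fun x _ => V[x.1]) ?_ ?_ ?_
    · intro x hx
      exact (Finset.mem_filter.1 hx).2
    · intro x _ y _ hxy
      exact Fin.ext ((h1.getElem_inj_iff).1 hxy)
    · intro a ha
      obtain ⟨x, hx, rfl⟩ := List.getElem_of_mem (hS1 a ha)
      exact ⟨⟨x, hx⟩, Finset.mem_filter.2 ⟨Finset.mem_univ _, ha⟩, rfl⟩
  · rw [← hS2, ← Sym2.card_image_offDiag S]
    refine Finset.card_bij (fun y _ => s(E[y.1].1, E[y.1].2)) ?_ ?_ ?_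
    · intro y hy
      refine Finset.mem_image.2 ⟨E[y.1], ?_, rfl⟩
      have := (Finset.mem_filter.1 hy).2
      rw [Finset.mem_offDiag]
      exact ⟨this.1, this.2, (h2 E[y.1] (List.getElem_mem _)).2.2⟩
    · intro y _ z _ hyz
      have h4 : (E.map (fun e => s(e.1, e.2)))[y.1]'(by simp [E]) =
          (E.map (fun e => s(e.1, e.2)))[z.1]'(by simp [E]) := by
        simpa using hyz
      have h5 := (h3.getElem_inj_iff).1 h4
      exact Fin.ext h5
    · intro p hp
      obtain ⟨⟨a, b⟩, hab, rfl⟩ := Finset.mem_image.1 hp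
      rw [Finset.mem_offDiag] at hab
      rcases hS3 a hab.1 b hab.2.1 hab.2.2 with h | h
      · obtain ⟨y, hy, hye⟩ := List.getElem_of_mem h
        refine ⟨⟨y, hy⟩, Finset.mem_filter.2 ⟨Finset.mem_univ _, ?_⟩, ?_⟩
        · rw [hye]
          exact ⟨hab.1, hab.2.1⟩
        · simp only
          rw [hye]
          rfl
      · obtain ⟨y, hy, hye⟩ := List.getElem_of_mem h
        refine ⟨⟨y, hy⟩, Finset.mem_filter.2 ⟨Finset.mem_univ _, ?_⟩, ?_⟩
        · rw [hye]
          exact ⟨hab.2.1, hab.1⟩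
        · simp only
          rw [hye]
          exact Sym2.eq_swap
  · intro y hy x hx
    have e1 : I.1.1.getD x.1 0 = V[x.1] := by
      rw [List.getD_eq_getElem?_getD, List.getElem?_eq_getElem x.2]
      rfl
    have e2 : I.1.2.getD y.1 (0, 0) = E[y.1] := by
      rw [List.getD_eq_getElem?_getD, List.getElem?_eq_getElem y.2]
      rfl
    have hyF := (Finset.mem_filter.1 hy).2
    refine Finset.mem_filter.2 ⟨Finset.mem_univ _, ?_⟩
    simp only [incL, e1, e2, Bool.or_eq_true, decide_eq_true_eq] at hx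
    rcases hx with h | h
    · rw [h]; exact hyF.1
    · rw [h]; exact hyF.2

/-- Capping the number `k`. -/
theorem hasClique_min (I : CI) :
    HasClique I.1.1 I.1.2 I.2 ↔ HasClique I.1.1 I.1.2 (min I.2 (I.1.1.length + 2)) := by
  classical
  by_cases h : I.2 ≤ I.1.1.length + 2
  · rw [min_eq_left h]
  · have key : ∀ k, I.1.1.length < k → ¬ HasClique I.1.1 I.1.2 k := by
      rintro k hk ⟨S, hS1, hS2, _⟩
      have : S ⊆ I.1.1.toFinset := fun a ha => List.mem_toFinset.2 (hS1 a ha)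
      have h1 := Finset.card_le_card this
      have h2 := List.toFinset_card_le I.1.1
      omega
    constructor
    · intro h'
      exact absurd h' (key _ (by omega))
    · intro h'
      exact absurd h' (key _ (by omega))

/-! ### Numbers -/

/-- The size parameter. -/
def sM (I : CI) : ℕ := I.1.1.length + I.1.2.length + 4

/-- The number of vertices. -/
def nn (κ : ℕ) (I : CI) : ℕ := 4 * κ * (sM I * sM I)

/-- The threshold. -/
def tt (κ p q : ℕ) (I : CI) : ℕ := (nn κ I * q + (p - 1)) / p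

/-- The size of the clique. -/
def kk (I : CI) : ℕ := min I.2 (I.1.1.length + 2)

/-- The number of edges of the clique. -/
def mm (I : CI) : ℕ := kk I * (kk I - 1) / 2

def uu (κ p q : ℕ) (I : CI) : ℕ := tt κ p q I + kk I - I.1.1.length

def ww (κ p q : ℕ) (I : CI) : ℕ := tt κ p q I - mm I

def ss (κ p q : ℕ) (I : CI) : ℕ :=
  nn κ I - (I.1.1.length + uu κ p q I + I.1.2.length + ww κ p q I)

section Numbers

variable {κ p q : ℕ} (hκ : p ≤ κ * q) (h4 : 4 * q ≤ p) (hq : 0 < q) (I : CI)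

include h4 hq

theorem tt_le_iff (a : ℕ) : tt κ p q I ≤ a ↔ nn κ I * q ≤ a * p := by
  have hp : 0 < p := by omega
  unfold tt
  rw [← Nat.lt_succ_iff, Nat.div_lt_iff_lt_mul hp, Nat.succ_mul]
  omega

include hκ

theorem le_tt : 4 * (sM I * sM I) ≤ tt κ p q I := by
  have hp : 0 < p := by omega
  unfold tt
  rw [Nat.le_div_iff_mul_le hp]
  have h1 : 4 * (sM I * sM I) * p ≤ 4 * (sM I * sM I) * (κ * q) := Nat.mul_le_mul_left _ hκ
  have h2 : nn κ I * q = 4 * (sM I * sM I) * (κ * q) := by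
    unfold nn
    ring
  omega

theorem tt_le : 4 * tt κ p q I ≤ nn κ I := by
  have h1 : tt κ p q I ≤ κ * (sM I * sM I) := by
    rw [tt_le_iff h4 hq]
    have h2 : nn κ I * q = κ * (sM I * sM I) * (4 * q) := by
      unfold nn
      ring
    rw [h2]
    exact Nat.mul_le_mul_left _ h4
  unfold nn
  calc 4 * tt κ p q I ≤ 4 * (κ * (sM I * sM I)) := Nat.mul_le_mul_left _ h1
    _ = 4 * κ * (sM I * sM I) := by ring

theorem kappa_pos : 0 < κ := by
  rcases Nat.eq_zero_or_pos κ with h | h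
  · subst h
    omega
  · exact h

theorem facts : I.1.1.length ≤ tt κ p q I ∧ mm I ≤ tt κ p q I ∧
    3 * tt κ p q I + kk I + I.1.2.length ≤ nn κ I ∧ 0 < tt κ p q I := by
  have h1 := le_tt hκ h4 hq I
  have h2 := tt_le hκ h4 hq I
  have h3 : sM I ≤ sM I * sM I := Nat.le_mul_self _
  have h5 : I.1.1.length + I.1.2.length + 4 = sM I := rfl
  have h6 : kk I ≤ I.1.1.length + 2 := min_le_right _ _
  have h7 : mm I ≤ sM I * sM I := by
    unfold mm
    refine (Nat.div_le_self _ _).trans (Nat.mul_le_mul (by omega) (by omega))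
  refine ⟨by omega, by omega, by omega, by omega⟩

end Numbers

/-- The valid labels. -/
def valid (κ p q : ℕ) (I : CI) (x : LabN) : Bool :=
  decide (x.1 = 0 ∧ x.2.1 < I.1.1.length ∧ x.2.2 = 0 ∨ x.1 = 1 ∧ x.2.1 < uu κ p q I ∧ x.2.2 = 0 ∨
    x.1 = 2 ∧ x.2.1 < I.1.2.length ∧ x.2.2 = 0 ∨ x.1 = 3 ∧ x.2.1 < ww κ p q I ∧ x.2.2 = 0 ∨
    x.1 = 4 ∧ x.2.1 < ss κ p q I ∧ x.2.2 = 0)

/-- Half of the adjacency test. -/
def adj (I : CI) (a b : LabN) : Bool :=
  decide (a.1 = 0 ∧ b.1 = 2 ∧ incL I a.2.1 b.2.1 = false ∨ a.1 = 0 ∧ b.1 = 3 ∨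
    a.1 = 1 ∧ b.1 = 2 ∨ a.1 = 1 ∧ b.1 = 3)

/-- The reduction. -/
def red (κ p q : ℕ) (I : CI) : List (List Bool) :=
  boxRed 5 (fun I => nn κ I + 1) (valid κ p q) adj I

theorem nn_uPoly (κ : ℕ) : UPoly (fun I : CI => nn κ I) := by
  have h1 : UPoly (fun I : CI => sM I) :=
    (((UPoly.length (Poly.fst (Poly.fst Poly.id))).add
      (UPoly.length (Poly.snd (Poly.fst Poly.id)))).add (UPoly.const 4))
  exact (UPoly.const (4 * κ)).mul (h1.mul h1)

theorem decide_false_poly {α : Type} [TEnc α] {b : α → Bool} (hb : Poly b) :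
    Poly (fun a => decide (b a = false)) :=
  (Poly.not hb).congr fun a => by cases b a <;> rfl

theorem red_poly (κ p q : ℕ) : Poly (red κ p q) := by
  refine boxRed_poly 5 ((nn_uPoly κ).add (UPoly.const 1)) ?_ ?_
  · unfold valid ss ww uu mm kk tt nn sM
    fun_prop
  · unfold adj incL
    have h1 : Poly (fun z : (CI × LabN) × LabN => decide (incL z.1.1 z.1.2.2.1 z.2.2.1 = false)) := by
      refine decide_false_poly ?_
      unfold incL
      fun_prop
    unfold incL at h1
    fun_prop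

/-- Labels of the vertices. -/
def enc {v u e w s : ℕ} : BV v u e w s → LabN
  | .P x => (0, x.1, 0)
  | .U x => (1, x.1, 0)
  | .E x => (2, x.1, 0)
  | .W x => (3, x.1, 0)
  | .I x => (4, x.1, 0)

theorem enc_injective {v u e w s : ℕ} : Function.Injective (enc : BV v u e w s → LabN) := by
  intro a b h
  cases a <;> cases b <;> simp [enc] at h <;> rw [Fin.ext h]

theorem half_iff (I : CI) {v u e w s : ℕ} (a b : BV v u e w s) :
    half (incL I) a b ↔ adj I (enc a) (enc b) = true := by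
  cases a <;> cases b <;> simp [half, adj, enc]

theorem red_iso {κ p q : ℕ} (hκ : p ≤ κ * q) (h4 : 4 * q ≤ p) (hq : 0 < q) (I : CI) :
    Nonempty ((graph (incL I) : SimpleGraph (BV I.1.1.length (uu κ p q I) I.1.2.length
      (ww κ p q I) (ss κ p q I))) ≃g matGraph (red κ p q I)) := by
  obtain ⟨f1, f2, f3, f4⟩ := facts hκ h4 hq I
  have g1 : uu κ p q I ≤ nn κ I := by
    unfold uu
    omega
  have g2 : ww κ p q I ≤ nn κ I := by
    unfold ww
    omega
  have g3 : ss κ p q I ≤ nn κ I := by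
    unfold ss
    omega
  refine boxRed_iso I _ enc enc_injective ?_ ?_ ?_
  · intro a
    cases a with
    | P x => have := x.2; simp [enc, valid]; omega
    | U x => have := x.2; simp [enc, valid]; omega
    | E x => have := x.2; simp [enc, valid]; omega
    | W x => have := x.2; simp [enc, valid]; omega
    | I x => have := x.2; simp [enc, valid]; omega
  · rintro ⟨k, i, j⟩ h1 h2 h3 h4
    simp only [valid, decide_eq_true_eq] at h4
    rcases h4 with ⟨rfl, h6, rfl⟩ | ⟨rfl, h6, rfl⟩ | ⟨rfl, h6, rfl⟩ | ⟨rfl, h6, rfl⟩ |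
      ⟨rfl, h6, rfl⟩
    · exact ⟨.P ⟨i, h6⟩, rfl⟩
    · exact ⟨.U ⟨i, h6⟩, rfl⟩
    · exact ⟨.E ⟨i, h6⟩, rfl⟩
    · exact ⟨.W ⟨i, h6⟩, rfl⟩
    · exact ⟨.I ⟨i, h6⟩, rfl⟩
  · intro a b _
    change (half (incL I) a b ∨ half (incL I) b a) ↔ _
    rw [half_iff, half_iff]

theorem card_red {κ p q : ℕ} (hκ : p ≤ κ * q) (h4 : 4 * q ≤ p) (hq : 0 < q) (I : CI) :
    Nat.card (Fin (red κ p q I).length) = nn κ I := by
  obtain ⟨e⟩ := red_iso hκ h4 hq I
  obtain ⟨f1, f2, f3, f4⟩ := facts hκ h4 hq I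
  rw [← Nat.card_congr e.toEquiv, card_BV]
  unfold ss ww uu
  omega

theorem red_perfect {κ p q : ℕ} (hκ : p ≤ κ * q) (h4 : 4 * q ≤ p) (hq : 0 < q) (I : CI) :
    H515R2.PP.Perfect (matGraph (red κ p q I)) := by
  obtain ⟨e⟩ := red_iso hκ h4 hq I
  intro s
  refine H515R2.PP.chi_eq_omega_two _ ?_
  have h1 : (matGraph (red κ p q I)).Colorable 2 :=
    (graph_colorable (inc := incL I)).of_hom e.symm.toEmbedding.toHom
  exact h1.of_hom (SimpleGraph.Embedding.induce s).toHom

theorem red_correct {κ p q : ℕ} (hκ : p ≤ κ * q) (h4 : 4 * q ≤ p) (hq : 0 < q) {I : CI}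
    (hI : IsGraph I.1.1 I.1.2) (hk : 2 ≤ I.2) :
    HasClique I.1.1 I.1.2 I.2 ↔ HasSP (tt κ p q I) (matGraph (red κ p q I)) := by
  obtain ⟨e⟩ := red_iso hκ h4 hq I
  obtain ⟨f1, f2, f3, f4⟩ := facts hκ h4 hq I
  have hkk : 2 ≤ kk I := le_min hk (by omega)
  have hmm : (kk I).choose 2 = mm I := Nat.choose_two_right _
  have e1 : tt κ p q I + kk I = I.1.1.length + uu κ p q I := by
    unfold uu
    omega
  have e2 : tt κ p q I = mm I + ww κ p q I := by
    unfold ww
    omega
  rw [hasClique_min I]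
  constructor
  · intro h
    obtain ⟨K, F, h1, h2, h3⟩ := dense_of_clique hI h
    refine HasSP.of_iso e (complete f4 e1 e2 ?_ ?_ h1 (h2.trans hmm) h3)
    · unfold ss ww uu
      omega
    · unfold ss ww uu
      have := tt_le hκ h4 hq I
      omega
  · intro h
    obtain ⟨K, F, h1, h2, h3⟩ := sound e1 e2 (HasSP.of_iso e.symm h)
    exact clique_of_dense hI hkk h1 (hmm ▸ h2) h3

theorem bsp_iff {c : ℚ} (hc : 4 ≤ c) {κ : ℕ} (hκ : c.num.toNat ≤ κ * c.den)
    (h4 : 4 * c.den ≤ c.num.toNat) (I : CI) :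
    HasBSP c (matGraph (red κ c.num.toNat c.den I)) ↔
      HasSP (tt κ c.num.toNat c.den I) (matGraph (red κ c.num.toNat c.den I)) := by
  have hq : 0 < c.den := c.den_pos
  have hcard := card_red hκ h4 hq I
  have hc0 : 0 < c := by linarith
  have key : ∀ a : ℕ, (Nat.card (Fin (red κ c.num.toNat c.den I).length) : ℚ) / c ≤ a ↔
      tt κ c.num.toNat c.den I ≤ a := by
    intro a
    rw [hcard, tt_le_iff h4 hq, div_le_iff₀ hc0]
    have h1 : (c.num.toNat : ℚ) = c * c.den := by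
      have h2 : ((c.num.toNat : ℤ) : ℚ) = (c.num : ℚ) := by
        rw [Int.toNat_of_nonneg (Rat.num_nonneg.2 hc0.le)]
      rw [← Rat.mul_den_eq_num] at h2
      exact_mod_cast h2
    have hq' : (0 : ℚ) < c.den := by exact_mod_cast hq
    rw [← Nat.cast_le (α := ℚ)]
    push_cast
    rw [h1, ← mul_assoc]
    constructor
    · intro h
      exact mul_le_mul_of_nonneg_right h hq'.le
    · intro h
      exact le_of_mul_le_mul_right h hq'
  unfold HasBSP HasSP
  simp only [key]

/-- **Hardness.** -/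
theorem hard (c : ℚ) (hc : 4 ≤ c) :
    NPHardOn (fun M : List (List Bool) => H515R2.PP.Perfect (matGraph M))
      (fun M => HasBSP c (matGraph M)) := by
  have hq : 0 < c.den := c.den_pos
  have hc0 : 0 < c := by linarith
  have h1 : (c.num.toNat : ℚ) = c * c.den := by
    have h2 : ((c.num.toNat : ℤ) : ℚ) = (c.num : ℚ) := by
      rw [Int.toNat_of_nonneg (Rat.num_nonneg.2 hc0.le)]
    rw [← Rat.mul_den_eq_num] at h2
    exact_mod_cast h2
  have hq' : (0 : ℚ) < c.den := by exact_mod_cast hq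
  have h4 : 4 * c.den ≤ c.num.toNat := by
    rw [← Nat.cast_le (α := ℚ), h1]
    push_cast
    exact mul_le_mul_of_nonneg_right hc hq'.le
  have hκ : c.num.toNat ≤ ⌈c⌉₊ * c.den := by
    rw [← Nat.cast_le (α := ℚ), h1]
    push_cast
    exact mul_le_mul_of_nonneg_right (Nat.le_ceil c) hq'.le
  refine npHardOn_of hardPr_CLIQUE (red_poly ⌈c⌉₊ c.num.toNat c.den) ?_ ?_
  · intro I _
    exact red_perfect hκ h4 hq I
  · rintro I ⟨hI, hk⟩
    rw [bsp_iff hc hκ h4 I, ← red_correct hκ h4 hq hI hk]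
    exact ⟨fun h => h.2, fun h => ⟨hI, h⟩⟩

end Pool.Agent.Q323.Skew
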